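import Pool.Agent.V113.IntK.ExB

/-!
# Polynomially dense does not imply equal eigenvalue sets

The question of MP_efce82_al has a negative answer: for `D = ℤ` and `A = ℤ[√17]` one has
`Int_K(A, A') = Int_K(A')`, although the eigenvalue set of `A'` contains `(1 + √17)/2`, which is
not in that of `A`. The definitions `inc`, `APrime`, `IntKPrime` are in
`Pool/Agent/V113/IntK/Defs.lean`, and `IntKPrimePrime`, `Omega` in `Pool/Agent/V113/IntK/ExB.lean`.
-/

set_option autoImplicit false

open Pool.Agent.V113.IntK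

namespace Pool.Agent.Results.MP_efce82_al.DenseNotEqual

/-- There is a commutative ring `A`, free of rank two as a module over `D = ℤ` (namely `ℤ[√17]`,
that is `ℤ[Y]/(Y² - 17)`), which is polynomially dense in `A'`, i.e.
`Int_K(A, A') = Int_K(A')`, and such that `Ω_{A'} ≠ Ω_A`. -/
theorem result :
    ∃ (A : Type) (_ : CommRing A) (_ : Algebra ℤ A),
      Nonempty (A ≃ₐ[ℤ] QuadraticAlgebra ℤ 17 0) ∧ Module.Finite ℤ A ∧ Module.Free ℤ A ∧
      Module.IsTorsionFree ℤ A ∧ Module.finrank ℤ A = 2 ∧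
      IntKPrime ℤ ℚ A = IntKPrimePrime ℤ ℚ A ∧
      ∃ x ∈ Omega ℤ ℚ A (APrime ℤ ℚ A), x ∉ Omega ℤ ℚ A (Set.range (inc ℤ ℚ A)) :=
  ⟨A17, inferInstance, inferInstance, ⟨AlgEquiv.refl⟩, inferInstance, inferInstance,
    inferInstance, QuadraticAlgebra.finrank_eq_two _ _, intKPrime_eq, exists_omega⟩

end Pool.Agent.Results.MP_efce82_al.DenseNotEqual
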